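import Pool.Agent.H10.GM.Targets1
import Pool.Agent.H55.GW.Basic

/-!
# The excluded grid theorem: a separator in `C` and disjoint paths to it, row MSP
-/

set_option autoImplicit false

namespace Pool.Agent.H1.GM

open Pool.Agent.H55.GW Pool.Agent.H10.GM

/-- a path given by a list as a function -/
theorem path_fun {V : Type} {D : V → V → Prop} {l : List V} {x y : V} (h : IsPath D l x y) :
    ∃ (P : ℕ → V) (n : ℕ), (∀ t < n, D (P t) (P (t + 1))) ∧
      (∀ s ≤ n, ∀ t ≤ n, P s = P t → s = t) ∧ P 0 = x ∧ P n = y ∧ ∀ t ≤ n, P t ∈ l := by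
  obtain ⟨hc, hn, hh, hl⟩ := h
  have hne : l ≠ [] := by
    rintro rfl
    simp at hh
  have hpos : 0 < l.length := List.length_pos_iff.2 hne
  have hlt : ∀ t, t ≤ l.length - 1 → t < l.length := fun t ht => by omega
  refine ⟨fun t => l.getD t y, l.length - 1, ?_, ?_, ?_, ?_, ?_⟩
  · intro t ht
    have h1 : t < l.length := by omega
    have h2 : t + 1 < l.length := by omega
    simp only
    rw [List.getD_eq_getElem _ _ h1, List.getD_eq_getElem _ _ h2]
    exact List.isChain_iff_getElem.1 hc t h2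
  · intro s hs t ht hst
    simp only at hst
    rw [List.getD_eq_getElem _ _ (hlt s hs), List.getD_eq_getElem _ _ (hlt t ht)] at hst
    exact (List.Nodup.getElem_inj_iff hn).1 hst
  · simp only
    rw [List.getD_eq_getElem _ _ hpos]
    rw [List.head?_eq_some_head hne, Option.some.injEq] at hh
    rw [← hh, List.head_eq_getElem]
  · simp only
    rw [List.getD_eq_getElem _ _ (by omega)]
    rw [List.getLast?_eq_some_getLast hne, Option.some.injEq] at hl
    rw [← hl, List.getLast_eq_getElem]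
  · intro t ht
    simp only
    rw [List.getD_eq_getElem _ _ (hlt t ht)]
    exact List.getElem_mem _

theorem pf_MSP (hMSM : T_MSM) : T_MSP := by
  classical
  intro V _ E hE k C Y Z hYC hZC hL
  obtain ⟨S, hS, hSep, hP⟩ := hMSM V (HH E C Y Z) (HH_sy hE) k Y Z hL
  refine ⟨S, hS, hSep, fun Q hQ => ?_⟩
  obtain ⟨y, P, h1, h2⟩ := hP Q hQ
  have hQC : ∀ v ∈ Q, v ∉ C := by
    rcases hQ with rfl | rfl
    · exact fun v hv hv' => Set.disjoint_left.1 hYC hv hv'
    · exact fun v hv hv' => Set.disjoint_left.1 hZC hv hv'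
  -- a walk from `Q` which avoids `S` ends in `Q` or outside `Y ∪ Z`
  have hsep : ∀ u ∈ Q, ∀ v, v ∈ Y ∪ Z → RIn (HH E C Y Z) ((S : Set V)ᶜ) u v → v ∈ Q := by
    intro u hu v hv hr
    rcases hQ with rfl | rfl
    · rcases hv with hv | hv
      · exact hv
      · exact absurd hr (hSep u hu v hv)
    · rcases hv with hv | hv
      · exact absurd (RIn.sy (HH_sy hE) hr) (hSep v hv u hu)
      · exact hv
  have key : ∀ s, ∃ (p : ℕ → V) (n : ℕ), s ∈ S → s ∈ C → 0 < n ∧ Pth E p n ∧ p 0 ∈ Q ∧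
      p 0 ∉ S ∧ p n = s ∧ (∀ t, 0 < t → t < n → p t ∈ C ∧ p t ∉ S) ∧ ∀ t ≤ n, p t ∈ P s := by
    intro s
    by_cases hs : s ∈ S ∧ s ∈ C
    swap
    · exact ⟨fun _ => s, 0, fun h h' => absurd ⟨h, h'⟩ hs⟩
    obtain ⟨hsS, hsC⟩ := hs
    obtain ⟨⟨hyQ, hw, hPS⟩, -⟩ := And.intro (h1 s hsS) trivial
    have hy : y s ∉ C := hQC _ hyQ
    have hPS' : ∀ v ∈ P s, v ∈ S → v = s := fun v hv hv' => by
      have : v ∈ P s ∩ (S : Set V) := ⟨hv, hv'⟩
      rw [hPS] at this
      exact this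
    -- the first visit of `s`
    obtain ⟨u, v, hu, hus, huv, hvs, -⟩ := hw.enter (T := {s})
      (fun h => hy ((Set.mem_singleton_iff.1 h).symm ▸ hsC)) rfl
    rw [Set.mem_singleton_iff] at hvs
    subst hvs
    -- the last vertex outside `C`
    obtain ⟨z, hzC, hz1, hz2⟩ := hu.last (T := Cᶜ) hy
    have hzP : z ∈ P v \ {v} := hz1.right_mem
    have hzv : z ≠ v := hzP.2
    have hzS : z ∉ S := fun h => hzv (hPS' z hzP.1 h)
    have hvP : v ∈ P v := hw.right_mem
    have hw2 : RIn (HH E C Y Z) ((P v ∩ C) ∪ {z}) z v := by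
      refine (hz2.mono_set ?_).tail huv (Or.inl ⟨hvP, hsC⟩)
      rintro a (⟨⟨ha, -⟩, ha'⟩ | ha)
      · exact Or.inl ⟨ha, by simpa using ha'⟩
      · exact Or.inr ha
    have hzYZ : z ∈ Y ∪ Z := by
      rcases hw2.cases_head with h | ⟨b, hb, -, -⟩
      · exact absurd h hzv
      · rcases hb.2.1 with (h | h) | h
        · exact absurd h hzC
        · exact Or.inl h
        · exact Or.inr h
    have hzQ : z ∈ Q := hsep _ hyQ z hzYZ (hz1.mono_set fun a ha haS => ha.2 (hPS' a ha.1 haS))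
    obtain ⟨l, hl, hlS⟩ := hw2.exists_path
    obtain ⟨p, n, hp1, hp2, hp3, hp4, hp5⟩ := path_fun hl
    have hn : 0 < n := by
      rcases Nat.eq_zero_or_pos n with rfl | h
      · exact absurd (hp3.symm.trans hp4) hzv
      · exact h
    refine ⟨p, n, fun _ _ => ⟨hn, ⟨fun t ht => (hp1 t ht).1, hp2⟩, by rw [hp3]; exact hzQ,
      by rw [hp3]; exact hzS, hp4, ?_, ?_⟩⟩
    · intro t ht0 htn
      have h3 : p t ≠ z := fun h => by
        have := hp2 t htn.le 0 (Nat.zero_le n) (h.trans hp3.symm)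
        omega
      have h4 : p t ∈ P v ∩ C := by
        rcases hlS _ (hp5 t htn.le) with h | h
        · exact h
        · exact absurd h h3
      refine ⟨h4.2, fun h => ?_⟩
      have h5 : t = n := hp2 t htn.le n le_rfl ((hPS' _ h4.1 h).trans hp4.symm)
      omega
    · intro t ht
      rcases hlS _ (hp5 t ht) with h | h
      · exact h.1
      · rw [Set.mem_singleton_iff] at h
        rw [h]
        exact hzP.1
  choose p n hpn using key
  refine ⟨p, n, fun s hs hsC => ?_, fun s hs hsC s' hs' hsC' hne t ht t' ht' h => ?_⟩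
  · obtain ⟨a1, a2, a3, a4, a5, a6, -⟩ := hpn s hs hsC
    exact ⟨a1, a2, a3, a4, a5, a6⟩
  · obtain ⟨-, -, -, -, -, -, a7⟩ := hpn s hs hsC
    obtain ⟨-, -, -, -, -, -, b7⟩ := hpn s' hs' hsC'
    exact Set.disjoint_left.1 (h2 s hs s' hs' hne) (a7 t ht) (h ▸ b7 t' ht')

end Pool.Agent.H1.GM
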