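import Pool.Agent.H53.GM.Basic

/-!
# Row PLG: local goodness in one step
-/

set_option autoImplicit false

namespace Pool.Agent.H1.GM

open Pool.Agent.H68.BP Pool.Agent.H58.SF Pool.Agent.H53.GC Pool.Agent.H53.GR Pool.Agent.H53.GM
open Classical

/-- Row PLG. -/
theorem pf_PLG : Pool.Agent.H53.GM.T_PLG := by
  intro Q 𝒦 K N G hG WB P P' _ _ _ B m C C' α κ₀ hB hLB hα hC hLC hC' hS U hU
  by_cases hinj : Set.InjOn C'.pt (U : Set P')
  swap
  · -- the map to `B` is not injective on `U`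
    have hcard : (U.image C'.pt).card ≤ m := by
      have h1 : (U.image C'.pt).card < U.card := by
        refine lt_of_le_of_ne Finset.card_image_le fun h => hinj ?_
        exact Finset.card_image_iff.1 h
      omega
    refine hG.g1 _ _ _ _ C'.pt ?_ (hLB (U.image C'.pt) hcard)
    rintro g κ ⟨hg, hgU⟩
    refine ⟨⟨hC'.ok g κ hg, fun x hx => ?_⟩, fun x _ => rfl⟩
    obtain ⟨y, hy, rfl⟩ := Finset.mem_image.1 hx
    exact Finset.mem_coe.2 (Finset.mem_image_of_mem _ (hgU y hy))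
  rcases hS U hinj with ⟨ψ, hψ⟩ | ⟨U₁, U₂, hUU, hne1, hne2, hgd, hαU⟩
  · -- a map to `C`
    have hcard : (U.image ψ).card ≤ m + 1 := Finset.card_image_le.trans hU
    refine hG.g1 _ _ _ _ ψ ?_ (hLC (U.image ψ) hcard)
    rintro g κ ⟨hg, hgU⟩
    obtain ⟨⟨κ', hκ'⟩, hpt⟩ := hψ g κ hg (fun x hx => hgU x hx)
    have h1 : B.gd ((g.image ψ).image C.pt) κ' := hC.ok _ _ hκ'
    have h2 : (g.image ψ).image C.pt = g.image C'.pt := by
      rw [Finset.image_image]
      exact Finset.image_congr fun x hx => hpt x hx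
    rw [h2] at h1
    have h3 : κ = κ' := hB.un _ _ _ (hC'.ok g κ hg) h1
    refine ⟨⟨?_, fun x hx => ?_⟩, fun x hx => ?_⟩
    · change C.gd (g.image ψ) κ
      rw [h3]
      exact hκ'
    · obtain ⟨y, hy, rfl⟩ := Finset.mem_image.1 hx
      exact Finset.mem_coe.2 (Finset.mem_image_of_mem _ (hgU y hy))
    · change B.pt (C.pt (ψ x)) = B.pt (C'.pt x)
      rw [hpt x hx]
  · -- amalgamation
    have hsub1 : U₁ ⊆ U := hUU ▸ Finset.subset_union_left
    have hsub2 : U₂ ⊆ U := hUU ▸ Finset.subset_union_right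
    have hc1 : U₁.card ≤ m := by
      have := Finset.card_lt_card (Finset.ssubset_iff_subset_ne.2 ⟨hsub1, hne1⟩)
      omega
    have hc2 : U₂.card ≤ m := by
      have := Finset.card_lt_card (Finset.ssubset_iff_subset_ne.2 ⟨hsub2, hne2⟩)
      omega
    obtain ⟨D, hD⟩ : ∃ D : Sy Q 𝒦 P', D = ⟨fun x => B.pt (C'.pt x), fun g κ =>
      (g ⊆ U₁ ∨ g ⊆ U₂) ∧ Set.InjOn C'.pt (g : Set P') ∧ B.gd (g.image C'.pt) κ⟩ := ⟨_, rfl⟩
    have hDpt : D.pt = fun x => B.pt (C'.pt x) := by rw [hD]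
    have hDgd : ∀ g κ, D.gd g κ ↔ ((g ⊆ U₁ ∨ g ⊆ U₂) ∧ Set.InjOn C'.pt (g : Set P') ∧
        B.gd (g.image C'.pt) κ) := by
      intro g κ
      rw [hD]
    have himg : ∀ g : Finset P', g.image D.pt = (g.image C'.pt).image B.pt := by
      intro g
      rw [Finset.image_image, hDpt]
      rfl
    have hsys : IsSys K D := by
      refine ⟨fun g κ hg => ?_, fun g κ g' hg hs => ?_, fun g κ κ' hg hg' => ?_, fun g κ hg => ?_⟩
      · obtain ⟨-, h1, h2⟩ := (hDgd g κ).1 hg
        intro x hx y hy hxy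
        rw [hDpt] at hxy
        refine h1 hx hy (hB.tr _ _ h2 ?_ ?_ hxy)
        · exact Finset.mem_coe.2 (Finset.mem_image_of_mem _ hx)
        · exact Finset.mem_coe.2 (Finset.mem_image_of_mem _ hy)
      · obtain ⟨h0, h1, h2⟩ := (hDgd g κ).1 hg
        refine (hDgd _ _).2 ⟨h0.imp (fun h => hs.trans h) (fun h => hs.trans h),
          h1.mono (Finset.coe_subset.2 hs), ?_⟩
        rw [himg]
        exact hB.dn _ _ _ h2 (Finset.image_subset_image hs)
      · exact hB.un _ _ _ ((hDgd g κ).1 hg).2.2 ((hDgd g κ').1 hg').2.2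
      · rw [himg]
        exact hB.ok _ _ ((hDgd g κ).1 hg).2.2
    have hgood : ∀ V : Finset P', V.card ≤ m → G P' (D.res (V : Set P')) := by
      intro V hV
      refine hG.g1 _ _ _ _ C'.pt ?_ (hLB (V.image C'.pt) (Finset.card_image_le.trans hV))
      rintro g κ ⟨hg, hgU⟩
      refine ⟨⟨((hDgd g κ).1 hg).2.2, fun x hx => ?_⟩, fun x _ => ?_⟩
      · obtain ⟨y, hy, rfl⟩ := Finset.mem_image.1 hx
        exact Finset.mem_coe.2 (Finset.mem_image_of_mem _ (hgU y hy))
      · change B.pt (C'.pt x) = D.pt x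
        rw [hDpt]
    have hGD : G P' D := by
      refine hG.g3 P' D (U₁ : Set P') (U₂ : Set P') (U₁ ∩ U₂)
        (K.rs (((U₁ ∩ U₂).image C'.pt).image B.pt) κ₀) hsys ?_ ?_ ?_ (hgood U₁ hc1)
        (hgood U₂ hc2)
      · refine (hDgd _ _).2 ⟨Or.inl Finset.inter_subset_left, ?_, ?_⟩
        · refine hinj.mono (Finset.coe_subset.2 ?_)
          exact Finset.inter_subset_left.trans hsub1
        · refine hB.dn α κ₀ _ hα fun x hx => ?_
          obtain ⟨y, hy, rfl⟩ := Finset.mem_image.1 hx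
          exact hαU y hy
      · intro x
        rw [Finset.mem_inter]
        rfl
      · intro g κ hg
        exact ((hDgd g κ).1 hg).1.imp (fun h x hx => Finset.mem_coe.2 (h hx))
          (fun h x hx => Finset.mem_coe.2 (h hx))
    refine hG.g1 _ _ _ _ (fun x => x) ?_ hGD
    rintro g κ ⟨hg, hgU⟩
    have hid : g.image (fun x => x) = g := Finset.image_id'
    rw [hid]
    refine ⟨(hDgd g κ).2 ⟨hgd g κ hg (fun x hx => hgU x hx), hC'.tr g κ hg, hC'.ok g κ hg⟩,
      fun x _ => ?_⟩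
    change D.pt x = B.pt (C'.pt x)
    rw [hDpt]

end Pool.Agent.H1.GM
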